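import Mathlib

set_option autoImplicit false

universe u v w

namespace Pool.Agent.PathAlg

/-- A path of the quiver `V` (of any length, trivial paths included), with its source and
target. -/
structure APath (V : Type v) [Quiver.{w} V] where
  src : V
  tgt : V
  path : Quiver.Path src tgt

/-- The path algebra `kQ` of the quiver on the vertex set `V`: formal `k`-linear combinations of
paths. -/
def PathAlgebra (k : Type u) [Field k] (V : Type v) [Quiver.{w} V] : Type (max u v w) :=
  APath V →₀ k

section basic

variable {k : Type u} [Field k] {V : Type v} [Quiver.{w} V]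

noncomputable instance : AddCommGroup (PathAlgebra k V) :=
  (Finsupp.instAddCommGroup : AddCommGroup (APath V →₀ k))

noncomputable instance : Module k (PathAlgebra k V) :=
  inferInstanceAs (Module k (APath V →₀ k))

variable (k V) in
/-- The paths form a basis of the path algebra. -/
noncomputable def pathBasis : Module.Basis (APath V) k (PathAlgebra k V) :=
  ⟨LinearEquiv.refl k (APath V →₀ k)⟩

variable (k) in
/-- The basis element of the path algebra given by a path. -/
noncomputable def ofPath (p : APath V) : PathAlgebra k V := pathBasis k V p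

/-- The trivial path at a vertex. -/
def triv (x : V) : APath V := ⟨x, x, Quiver.Path.nil⟩

/-- An arrow as a path of length one. -/
def arr {x y : V} (a : x ⟶ y) : APath V := ⟨x, y, a.toPath⟩

/-- The concatenation of `q` followed by `p`, when `q` ends where `p` starts. -/
def after (p q : APath V) (h : q.tgt = p.src) : APath V :=
  ⟨q.src, p.tgt, (q.path.cast rfl h).comp p.path⟩

open Classical in
/-- The product `p * q` of two paths in the path algebra: first `q`, then `p`, if `q` ends where
`p` starts, and `0` otherwise. -/
noncomputable def pathMul (p q : APath V) : PathAlgebra k V :=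
  if h : q.tgt = p.src then ofPath k (after p q h) else 0

/-- The product of the path algebra: the bilinear extension of `pathMul`. -/
noncomputable def mulFun (f g : PathAlgebra k V) : PathAlgebra k V :=
  Finsupp.sum (f : APath V →₀ k) fun p a =>
    Finsupp.sum (g : APath V →₀ k) fun q b => (a * b) • pathMul p q

noncomputable instance : Mul (PathAlgebra k V) := ⟨mulFun⟩

/-- The bilinear multiplication of the path algebra. -/
noncomputable def mulLin : PathAlgebra k V →ₗ[k] PathAlgebra k V →ₗ[k] PathAlgebra k V :=
  (pathBasis k V).constr k fun p => (pathBasis k V).constr k fun q => pathMul p q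

lemma mul_def (f g : PathAlgebra k V) : f * g = mulLin f g := by
  change mulFun f g = mulLin f g
  rw [mulLin, Module.Basis.constr_apply, Finsupp.sum, LinearMap.sum_apply, mulFun]
  refine Finset.sum_congr rfl fun p _ => ?_
  rw [LinearMap.smul_apply, Module.Basis.constr_apply, Finsupp.sum, Finset.smul_sum]
  refine Finset.sum_congr rfl fun q _ => ?_
  exact mul_smul _ _ _

lemma ofPath_mul_ofPath (p q : APath V) :
    ofPath k p * ofPath k q = pathMul p q := by
  rw [mul_def, mulLin, ofPath, ofPath, Module.Basis.constr_basis, Module.Basis.constr_basis]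

lemma pathMul_of_eq {x y z : V} (p : Quiver.Path y z) (q : Quiver.Path x y) :
    pathMul (k := k) ⟨y, z, p⟩ ⟨x, y, q⟩ = ofPath k ⟨x, z, q.comp p⟩ := by
  rw [pathMul, dif_pos rfl]
  rfl

lemma pathMul_of_ne (p q : APath V) (h : q.tgt ≠ p.src) : pathMul (k := k) p q = 0 := by
  rw [pathMul, dif_neg h]

lemma mul_assoc_path (p q r : APath V) :
    (ofPath k p * ofPath k q) * ofPath k r = ofPath k p * (ofPath k q * ofPath k r) := by
  rw [ofPath_mul_ofPath, ofPath_mul_ofPath]
  obtain ⟨a, b, p⟩ := p
  obtain ⟨c, d, q⟩ := q
  obtain ⟨e, f, r⟩ := r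
  by_cases h1 : d = a
  · subst h1
    by_cases h2 : f = c
    · subst h2
      rw [pathMul_of_eq, pathMul_of_eq, ofPath_mul_ofPath, ofPath_mul_ofPath, pathMul_of_eq,
        pathMul_of_eq, Quiver.Path.comp_assoc]
    · rw [pathMul_of_eq, pathMul_of_ne _ _ h2, ofPath_mul_ofPath, pathMul_of_ne _ _ h2, mul_def,
        map_zero]
  · by_cases h2 : f = c
    · subst h2
      rw [pathMul_of_eq, pathMul_of_ne _ _ h1, ofPath_mul_ofPath, pathMul_of_ne _ _ h1, mul_def,
        map_zero, LinearMap.zero_apply]
    · rw [pathMul_of_ne _ _ h1, pathMul_of_ne _ _ h2, mul_def, mul_def, map_zero, map_zero,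
        LinearMap.zero_apply]

lemma path_mul_assoc (f g h : PathAlgebra k V) : f * g * h = f * (g * h) := by
  -- both sides are trilinear
  let L : PathAlgebra k V →ₗ[k] PathAlgebra k V →ₗ[k] PathAlgebra k V →ₗ[k] PathAlgebra k V :=
    mulLin.compr₂ mulLin
  let R : PathAlgebra k V →ₗ[k] PathAlgebra k V →ₗ[k] PathAlgebra k V →ₗ[k] PathAlgebra k V :=
    (LinearMap.llcomp k _ _ _ ∘ₗ mulLin).compl₂ mulLin
  have hL : ∀ f g h, L f g h = f * g * h := fun _ _ _ => by rw [mul_def, mul_def]; rfl
  have hR : ∀ f g h, R f g h = f * (g * h) := fun _ _ _ => by rw [mul_def, mul_def]; rfl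
  have : L = R := by
    refine (pathBasis k V).ext fun p => (pathBasis k V).ext fun q => (pathBasis k V).ext fun r => ?_
    rw [hL, hR]
    exact mul_assoc_path p q r
  rw [← hL, ← hR, this]

variable [Fintype V]

noncomputable instance : One (PathAlgebra k V) := ⟨∑ x : V, ofPath k (triv x)⟩

lemma one_def : (1 : PathAlgebra k V) = ∑ x : V, ofPath k (triv x) := rfl

lemma path_one_mul (f : PathAlgebra k V) : 1 * f = f := by
  have : mulLin (1 : PathAlgebra k V) = LinearMap.id := by
    refine (pathBasis k V).ext fun p => ?_
    obtain ⟨a, b, p⟩ := p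
    rw [one_def, map_sum, LinearMap.sum_apply, Finset.sum_eq_single b]
    · change mulLin (ofPath k (triv b)) (ofPath k ⟨a, b, p⟩) = ofPath k ⟨a, b, p⟩
      rw [← mul_def, ofPath_mul_ofPath, triv, pathMul_of_eq]
      rfl
    · intro c _ hc
      change mulLin (ofPath k (triv c)) (ofPath k ⟨a, b, p⟩) = 0
      rw [← mul_def, ofPath_mul_ofPath, pathMul_of_ne]
      exact fun h => hc h.symm
    · intro h; exact absurd (Finset.mem_univ _) h
  rw [mul_def, this]
  rfl

lemma path_mul_one (f : PathAlgebra k V) : f * 1 = f := by
  have : (mulLin (k := k) (V := V)).flip 1 = LinearMap.id := by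
    refine (pathBasis k V).ext fun p => ?_
    obtain ⟨a, b, p⟩ := p
    rw [LinearMap.flip_apply, one_def, map_sum, Finset.sum_eq_single a]
    · change mulLin (ofPath k ⟨a, b, p⟩) (ofPath k (triv a)) = ofPath k ⟨a, b, p⟩
      rw [← mul_def, ofPath_mul_ofPath, triv, pathMul_of_eq, Quiver.Path.nil_comp]
    · intro c _ hc
      change mulLin (ofPath k ⟨a, b, p⟩) (ofPath k (triv c)) = 0
      rw [← mul_def, ofPath_mul_ofPath, pathMul_of_ne]
      exact hc
    · intro h; exact absurd (Finset.mem_univ _) h
  rw [mul_def, ← LinearMap.flip_apply, this]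
  rfl

omit [Fintype V] in
lemma path_mul_add (f g h : PathAlgebra k V) : f * (g + h) = f * g + f * h := by
  rw [mul_def, mul_def, mul_def, map_add]

omit [Fintype V] in
lemma path_add_mul (f g h : PathAlgebra k V) : (f + g) * h = f * h + g * h := by
  rw [mul_def, mul_def, mul_def, map_add, LinearMap.add_apply]

omit [Fintype V] in
lemma path_zero_mul (f : PathAlgebra k V) : 0 * f = 0 := by
  rw [mul_def, map_zero, LinearMap.zero_apply]

omit [Fintype V] in
lemma path_mul_zero (f : PathAlgebra k V) : f * 0 = 0 := by
  rw [mul_def, map_zero]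

noncomputable instance : Ring (PathAlgebra k V) :=
  { (inferInstance : AddCommGroup (PathAlgebra k V)), (inferInstance : Mul (PathAlgebra k V)),
    (inferInstance : One (PathAlgebra k V)) with
    left_distrib := path_mul_add
    right_distrib := path_add_mul
    zero_mul := path_zero_mul
    mul_zero := path_mul_zero
    mul_assoc := path_mul_assoc
    one_mul := path_one_mul
    mul_one := path_mul_one }

noncomputable instance : Algebra k (PathAlgebra k V) :=
  Algebra.ofModule
    (fun r f g => by rw [mul_def, mul_def, map_smul, LinearMap.smul_apply])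
    (fun r f g => by rw [mul_def, mul_def, map_smul])

end basic

end Pool.Agent.PathAlg
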