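import Pool.Agent.PathAlg.Defs

set_option autoImplicit false

universe u v w

open CategoryTheory

namespace Pool.Agent.PathAlg

section cover
variable {Λ : Type u} [Ring Λ]

/-- Projective covers of isomorphic modules have isomorphic kernels. -/
lemma cover_unique {M M' P P' : ModuleCat.{v} Λ} (π : P →ₗ[Λ] M) (π' : P' →ₗ[Λ] M')
    (h : IsProjectiveCover π) (h' : IsProjectiveCover π') (e : M ≃ₗ[Λ] M') :
    Nonempty (LinearMap.ker π ≃ₗ[Λ] LinearMap.ker π') := by
  obtain ⟨hP, hs, hsup⟩ := h
  obtain ⟨hP', hs', hsup'⟩ := h'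
  obtain ⟨f, hf⟩ := Module.projective_lifting_property π' (e.toLinearMap ∘ₗ π) hs'
  have hf' : ∀ p, π' (f p) = e (π p) := fun p => congrArg (fun F => F p) hf
  have hfs : LinearMap.range f = ⊤ := by
    apply hsup'
    rw [eq_top_iff]
    intro p' _
    obtain ⟨p, hp⟩ := hs (e.symm (π' p'))
    have h1 : p' - f p ∈ LinearMap.ker π' := by
      rw [LinearMap.mem_ker, map_sub, hf', hp, LinearEquiv.apply_symm_apply, sub_self]
    have h2 : p' = f p + (p' - f p) := by abel
    rw [h2]
    exact Submodule.add_mem_sup ⟨p, rfl⟩ h1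
  obtain ⟨s, hsec⟩ := Module.projective_lifting_property f LinearMap.id
    (LinearMap.range_eq_top.1 hfs)
  have hsec' : ∀ p, f (s p) = p := fun p => congrArg (fun F => F p) hsec
  have hss : LinearMap.range s = ⊤ := by
    apply hsup
    rw [eq_top_iff]
    intro p _
    have h1 : p - s (f p) ∈ LinearMap.ker π := by
      rw [LinearMap.mem_ker]
      apply e.injective
      rw [← hf', map_sub, hsec', sub_self, map_zero, map_zero]
    have h2 : p = s (f p) + (p - s (f p)) := by abel
    rw [h2]
    exact Submodule.add_mem_sup ⟨f p, rfl⟩ h1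
  have hfi : Function.Injective f := by
    intro p q hpq
    obtain ⟨p', rfl⟩ := LinearMap.range_eq_top.1 hss p
    obtain ⟨q', rfl⟩ := LinearMap.range_eq_top.1 hss q
    rw [hsec', hsec'] at hpq
    rw [hpq]
  let F : P ≃ₗ[Λ] P' := LinearEquiv.ofBijective f ⟨hfi, LinearMap.range_eq_top.1 hfs⟩
  have hmap : (LinearMap.ker π).map F.toLinearMap = LinearMap.ker π' := by
    ext p'
    constructor
    · rintro ⟨p, hp, rfl⟩
      rw [LinearMap.mem_ker]
      change π' (f p) = 0
      rw [hf', LinearMap.mem_ker.1 hp, map_zero]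
    · intro hp'
      obtain ⟨p, rfl⟩ := LinearMap.range_eq_top.1 hfs p'
      refine ⟨p, ?_, rfl⟩
      change π p = 0
      apply e.injective
      rw [← hf', LinearMap.mem_ker.1 hp', map_zero]
  exact ⟨(F.submoduleMap (LinearMap.ker π)).trans (LinearEquiv.ofEq _ _ hmap)⟩

/-- The projective dimension can be computed with a short exact sequence. -/
lemma hpd_shift {M P L : ModuleCat.{u} Λ} (ι : L →ₗ[Λ] P) (π : P →ₗ[Λ] M)
    (hι : Function.Injective ι) (hπ : Function.Surjective π)
    (hex : LinearMap.range ι = LinearMap.ker π) (hP : Module.Projective Λ P) (n : ℕ) :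
    HasProjectiveDimensionLT M (n + 2) ↔ HasProjectiveDimensionLT L (n + 1) := by
  have hz : ModuleCat.ofHom ι ≫ ModuleCat.ofHom π = 0 := by
    ext x
    have : ι x ∈ LinearMap.ker π := by rw [← hex]; exact ⟨x, rfl⟩
    exact this
  let S : ShortComplex (ModuleCat.{u} Λ) := ShortComplex.mk (ModuleCat.ofHom ι)
    (ModuleCat.ofHom π) hz
  have hS : S.ShortExact := by
    refine ShortComplex.ShortExact.mk' ?_ ?_ ?_
    · rw [ShortComplex.moduleCat_exact_iff]
      intro x hx
      have : x ∈ LinearMap.ker π := hx
      rw [← hex] at this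
      exact this
    · rw [ModuleCat.mono_iff_injective]; exact hι
    · rw [ModuleCat.epi_iff_surjective]; exact hπ
  have hproj : Projective S.X₂ := (IsProjective.iff_projective (R := Λ) P).1 hP
  exact hS.hasProjectiveDimensionLT_X₃_iff n hproj

end cover

section modOf

variable {k : Type u} [Field k] {V : Type v} [Fintype V] [Quiver.{w} V]
variable {M : Type u} [AddCommGroup M] [Module k M]

/-- The module over `kQ / I` given by a representation of the quiver satisfying the relations. -/
def ModOf (D : Rep k V (Module.End k M)) (I : Ideal (PathAlgebra k V)) [I.IsTwoSided]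
    (_h : ∀ f ∈ I, D.lift f = 0) : Type u := M

variable (D : Rep k V (Module.End k M)) (I : Ideal (PathAlgebra k V)) [I.IsTwoSided]
  (h : ∀ f ∈ I, D.lift f = 0)

instance : AddCommGroup (ModOf D I h) := inferInstanceAs (AddCommGroup M)
instance : Module k (ModOf D I h) := inferInstanceAs (Module k M)

/-- the action homomorphism -/
noncomputable def act : (PathAlgebra k V ⧸ I) →+* Module.End k M :=
  Ideal.Quotient.lift I D.lift.toRingHom h

noncomputable instance : Module (PathAlgebra k V ⧸ I) (ModOf D I h) where
  smul a m := (act D I h a : Module.End k M) m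
  one_smul m := by
    change (act D I h 1 : Module.End k M) m = m
    rw [map_one]; rfl
  mul_smul a b m := by
    change (act D I h (a * b) : Module.End k M) m = act D I h a (act D I h b m)
    rw [map_mul]; rfl
  smul_zero a := (act D I h a).map_zero
  smul_add a m n := (act D I h a).map_add m n
  add_smul a b m := by
    change (act D I h (a + b) : Module.End k M) m = act D I h a m + act D I h b m
    rw [map_add]; rfl
  zero_smul m := by
    change (act D I h 0 : Module.End k M) m = 0
    rw [map_zero]; rfl

/-- Elements of `M` seen in the module. -/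
def toMod (m : M) : ModOf D I h := m

lemma mk_smul (f : PathAlgebra k V) (m : M) :
    (Ideal.Quotient.mk I f) • toMod D I h m = toMod D I h (D.lift f m) := rfl

lemma triv_smul (x : V) (m : M) :
    vertexIdem I x • toMod D I h m = toMod D I h (D.e x m) := by
  rw [vertexIdem, mk_smul, D.lift_triv]

lemma arr_smul {x y : V} (f : x ⟶ y) (m : M) :
    (Ideal.Quotient.mk I (ofPath k (arr f))) • toMod D I h m = toMod D I h (D.a f m) := by
  rw [mk_smul, D.lift_arr]

lemma ofPath_cons {x y z : V} (p : Quiver.Path x y) (f : y ⟶ z) :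
    ofPath k (⟨x, z, p.cons f⟩ : APath V) = ofPath k (arr f) * ofPath k ⟨x, y, p⟩ := by
  rw [ofPath_mul_ofPath, arr, pathMul_of_eq]
  rfl

/-- A linear map which commutes with the trivial paths and the arrows is a module homomorphism. -/
lemma linear_of {N : Type u} [AddCommGroup N] [Module k N] [Module (PathAlgebra k V ⧸ I) N]
    [IsScalarTower k (PathAlgebra k V ⧸ I) N] (φ : M →ₗ[k] N)
    (he : ∀ x m, φ (D.e x m) = vertexIdem I x • φ m)
    (ha : ∀ {x y : V} (f : x ⟶ y) m,
      φ (D.a f m) = (Ideal.Quotient.mk I (ofPath k (arr f))) • φ m)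
    (a : PathAlgebra k V ⧸ I) (m : M) : φ (act D I h a m) = a • φ m := by
  obtain ⟨f, rfl⟩ := Ideal.Quotient.mk_surjective a
  change φ (D.lift f m) = _
  -- linear in `f`
  let L : PathAlgebra k V →ₗ[k] N :=
    φ ∘ₗ (LinearMap.applyₗ m) ∘ₗ D.lift.toLinearMap
  let R : PathAlgebra k V →ₗ[k] N :=
    { toFun := fun f => (Ideal.Quotient.mk I f) • φ m
      map_add' := fun f g => by rw [map_add, add_smul]
      map_smul' := fun c f => by
        change (Ideal.Quotient.mkₐ k I (c • f)) • φ m = c • (Ideal.Quotient.mkₐ k I f • φ m)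
        rw [map_smul, smul_assoc] }
  have key : ∀ (x y : V) (p : Quiver.Path x y) (m : M),
      φ (D.evalPath p m) = (Ideal.Quotient.mk I (ofPath k ⟨x, y, p⟩)) • φ m := by
    intro x y p
    induction p with
    | nil => intro m; exact he x m
    | cons p f ih =>
      intro m
      rw [ofPath_cons, map_mul, mul_smul, ← ih, ← ha]
      rfl
  have : L = R := by
    refine (pathBasis k V).ext fun p => ?_
    change φ (D.lift (ofPath k p) m) = (Ideal.Quotient.mk I (ofPath k p)) • φ m
    rw [D.lift_ofPath]
    exact key _ _ _ _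
  exact congrArg (fun F => F f) this

/-- The module homomorphism from a linear map commuting with trivial paths and arrows. -/
noncomputable def homOf {N : Type u} [AddCommGroup N] [Module k N]
    [Module (PathAlgebra k V ⧸ I) N] [IsScalarTower k (PathAlgebra k V ⧸ I) N] (φ : M →ₗ[k] N)
    (he : ∀ x m, φ (D.e x m) = vertexIdem I x • φ m)
    (ha : ∀ {x y : V} (f : x ⟶ y) m,
      φ (D.a f m) = (Ideal.Quotient.mk I (ofPath k (arr f))) • φ m) :
    ModOf D I h →ₗ[PathAlgebra k V ⧸ I] N where
  toFun := φ
  map_add' := φ.map_add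
  map_smul' a m := linear_of D I h φ he ha a m

instance : IsScalarTower k (PathAlgebra k V ⧸ I) (ModOf D I h) where
  smul_assoc c a m := by
    obtain ⟨f, rfl⟩ := Ideal.Quotient.mk_surjective a
    change (D.lift (c • f) : Module.End k M) m = c • D.lift f m
    rw [map_smul]
    rfl

end modOf

end Pool.Agent.PathAlg
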