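import Pool.Agent.PathAlg.Basic

set_option autoImplicit false

universe u v w

open CategoryTheory

namespace Pool.Agent.PathAlg

section
variable (k : Type u) [Field k] (V : Type v) [Fintype V] [Quiver.{w} V]

/-- The ideal `R` of the path algebra generated by the arrows; it is spanned by the paths of
positive length. -/
noncomputable def arrowIdeal : Ideal (PathAlgebra k V) :=
  Ideal.span {f | ∃ p : APath V, 0 < p.path.length ∧ f = ofPath k p}

variable {k V}

/-- An ideal `I` of the path algebra is admissible if `R ^ m ⊆ I ⊆ R ^ 2` for some `m ≥ 2`. -/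
def IsAdmissible (I : Ideal (PathAlgebra k V)) : Prop :=
  ∃ m : ℕ, 2 ≤ m ∧ arrowIdeal k V ^ m ≤ I ∧ I ≤ arrowIdeal k V ^ 2

/-- The idempotent `e_x` of `Λ = kQ / I` given by the trivial path at the vertex `x`. -/
noncomputable def vertexIdem (I : Ideal (PathAlgebra k V)) [I.IsTwoSided] (x : V) :
    PathAlgebra k V ⧸ I :=
  Ideal.Quotient.mk I (ofPath k (triv x))

end

section cover
variable {Λ : Type u} [Ring Λ]

/-- A surjection `π : P → M` from a projective module is a projective cover if its kernel is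
superfluous. -/
def IsProjectiveCover {P M : ModuleCat.{v} Λ} (π : P →ₗ[Λ] M) : Prop :=
  Module.Projective Λ P ∧ Function.Surjective π ∧
    ∀ N : Submodule Λ P, N ⊔ LinearMap.ker π = ⊤ → N = ⊤

/-- `IsSyzygy n M N`: the module `N` is (isomorphic to) the `n`-th syzygy `Ω^n(M)` of `M`, taken in
a minimal projective resolution: `Ω^0(M) = M`, and `Ω^(n+1)(M)` is the kernel of a projective cover
of `Ω^n(M)`. -/
def IsSyzygy : ℕ → ModuleCat.{v} Λ → ModuleCat.{v} Λ → Prop
  | 0, M, N => Nonempty (M ≃ₗ[Λ] N)
  | n + 1, M, N => ∃ M' P : ModuleCat.{v} Λ, IsSyzygy n M M' ∧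
      ∃ π : P →ₗ[Λ] M', IsProjectiveCover π ∧ Nonempty (LinearMap.ker π ≃ₗ[Λ] N)

/-- `AvoidedFromOneOn e S`: for every `n ≥ 1` the module `S` has an `n`-th syzygy in a minimal
projective resolution, and the element `e` annihilates every `n`-th syzygy of `S`. -/
def AvoidedFromOneOn (e : Λ) (S : ModuleCat.{v} Λ) : Prop :=
  ∀ n : ℕ, 1 ≤ n → (∃ N : ModuleCat.{v} Λ, IsSyzygy n S N) ∧
    ∀ N : ModuleCat.{v} Λ, IsSyzygy n S N → ∀ v : N, e • v = 0

/-- `S` is a simple module on which `e` does not act as zero. (For `e = e_x` this says that `S` is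
the simple module `S_x` at the vertex `x`.) -/
def IsSimpleAt (e : Λ) (S : ModuleCat.{v} Λ) : Prop :=
  IsSimpleModule Λ S ∧ ∃ s : S, e • s ≠ 0

end cover

section lift

variable {k : Type u} [Field k] {V : Type v} [Fintype V] [Quiver.{w} V]
variable {B : Type u} [Ring B] [Algebra k B]

/-- The data needed to define an algebra homomorphism out of a path algebra. -/
structure Rep (k : Type u) [Field k] (V : Type v) [Fintype V] [Quiver.{w} V] (B : Type u) [Ring B]
    [Algebra k B] where
  e : V → B
  a : ∀ {x y : V}, (x ⟶ y) → B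
  e_idem : ∀ x, e x * e x = e x
  e_orth : ∀ x y, x ≠ y → e x * e y = 0
  e_sum : ∑ x, e x = 1
  a_src : ∀ {x y : V} (f : x ⟶ y), a f * e x = a f
  a_tgt : ∀ {x y : V} (f : x ⟶ y), e y * a f = a f

/-- The value of a path. -/
def Rep.evalPath (D : Rep k V B) {x : V} : ∀ {y : V}, Quiver.Path x y → B
  | _, Quiver.Path.nil => D.e x
  | _, Quiver.Path.cons p f => D.a f * Rep.evalPath D p

variable (D : Rep k V B)

lemma Rep.evalPath_src {x y : V} (p : Quiver.Path x y) : D.evalPath p * D.e x = D.evalPath p := by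
  induction p with
  | nil => exact D.e_idem x
  | cons p f ih => rw [Rep.evalPath, mul_assoc, ih]

lemma Rep.evalPath_tgt {x y : V} (p : Quiver.Path x y) : D.e y * D.evalPath p = D.evalPath p := by
  cases p with
  | nil => exact D.e_idem x
  | cons p f => rw [Rep.evalPath, ← mul_assoc, D.a_tgt]

lemma Rep.evalPath_comp {x y z : V} (q : Quiver.Path x y) (p : Quiver.Path y z) :
    D.evalPath (q.comp p) = D.evalPath p * D.evalPath q := by
  induction p with
  | nil => rw [Quiver.Path.comp_nil, Rep.evalPath, D.evalPath_tgt]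
  | cons p f ih => rw [Quiver.Path.comp_cons, Rep.evalPath, Rep.evalPath, ih, mul_assoc]

/-- The linear map underlying the lift. -/
noncomputable def Rep.lin : PathAlgebra k V →ₗ[k] B :=
  (pathBasis k V).constr k fun p => D.evalPath p.path

lemma Rep.lin_ofPath (p : APath V) : D.lin (ofPath k p) = D.evalPath p.path := by
  rw [Rep.lin, ofPath, Module.Basis.constr_basis]

lemma Rep.lin_mul (f g : PathAlgebra k V) : D.lin (f * g) = D.lin f * D.lin g := by
  let L : PathAlgebra k V →ₗ[k] PathAlgebra k V →ₗ[k] B := (mulLin (k := k) (V := V)).compr₂ D.lin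
  let R : PathAlgebra k V →ₗ[k] PathAlgebra k V →ₗ[k] B :=
    (LinearMap.mul k B).compl₁₂ D.lin D.lin
  have : L = R := by
    refine (pathBasis k V).ext fun p => (pathBasis k V).ext fun q => ?_
    change D.lin (mulLin (ofPath k p) (ofPath k q)) = D.lin (ofPath k p) * D.lin (ofPath k q)
    rw [← mul_def, ofPath_mul_ofPath, D.lin_ofPath, D.lin_ofPath]
    obtain ⟨a, b, p⟩ := p
    obtain ⟨c, d, q⟩ := q
    by_cases h : d = a
    · subst h
      rw [pathMul_of_eq, D.lin_ofPath, D.evalPath_comp]
    · rw [pathMul_of_ne _ _ h, map_zero, ← D.evalPath_src p, ← D.evalPath_tgt q, mul_assoc,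
        ← mul_assoc (D.e a), D.e_orth _ _ (Ne.symm h), zero_mul, mul_zero]
  rw [mul_def]
  exact congrArg (fun F => F f g) this

/-- The algebra homomorphism out of the path algebra. -/
noncomputable def Rep.lift : PathAlgebra k V →ₐ[k] B :=
  AlgHom.ofLinearMap D.lin
    (by
      rw [one_def, map_sum, ← D.e_sum]
      exact Finset.sum_congr rfl fun x _ => D.lin_ofPath (triv x))
    D.lin_mul

lemma Rep.lift_ofPath (p : APath V) : D.lift (ofPath k p) = D.evalPath p.path := D.lin_ofPath p

lemma Rep.lift_triv (x : V) : D.lift (ofPath k (triv x)) = D.e x := D.lin_ofPath _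

lemma Rep.lift_arr {x y : V} (f : x ⟶ y) : D.lift (ofPath k (arr f)) = D.a f := by
  rw [D.lift_ofPath]
  change D.a f * D.e x = D.a f
  exact D.a_src f

end lift

end Pool.Agent.PathAlg
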