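import Pool.Agent.PathAlg.Cover

set_option autoImplicit false

universe u

open CategoryTheory

namespace Pool.Agent.PathAlg

/-- the three vertices -/
inductive Vtx : Type
  | x | y | z
  deriving DecidableEq

instance : Fintype Vtx := ⟨{Vtx.x, Vtx.y, Vtx.z}, by intro v; cases v <;> simp⟩

/-- the four arrows `a : x → y`, `b : y → y`, `c : y → z`, `d : z → x` -/
inductive Arrow : Vtx → Vtx → Type
  | a : Arrow Vtx.x Vtx.y
  | b : Arrow Vtx.y Vtx.y
  | c : Arrow Vtx.y Vtx.z
  | d : Arrow Vtx.z Vtx.x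

instance : Quiver.{0} Vtx := ⟨Arrow⟩

instance (p q : Vtx) : Finite (p ⟶ q) := by
  have : Subsingleton (Arrow p q) := ⟨by
    intro f g; cases f <;> cases g <;> rfl⟩
  exact inferInstanceAs (Finite (Arrow p q))

/-- the arrow `a` -/
def qa : Vtx.x ⟶ Vtx.y := Arrow.a
/-- the arrow `b` -/
def qb : Vtx.y ⟶ Vtx.y := Arrow.b
/-- the arrow `c` -/
def qc : Vtx.y ⟶ Vtx.z := Arrow.c
/-- the arrow `d` -/
def qd : Vtx.z ⟶ Vtx.x := Arrow.d

lemma strongly : Quiver.IsStronglyConnected Vtx := by
  intro i j
  have xy : Quiver.Path Vtx.x Vtx.y := qa.toPath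
  have yz : Quiver.Path Vtx.y Vtx.z := qc.toPath
  have zx : Quiver.Path Vtx.z Vtx.x := qd.toPath
  cases i <;> cases j
  · exact ⟨Quiver.Path.nil⟩
  · exact ⟨xy⟩
  · exact ⟨xy.comp yz⟩
  · exact ⟨yz.comp zx⟩
  · exact ⟨Quiver.Path.nil⟩
  · exact ⟨yz⟩
  · exact ⟨zx⟩
  · exact ⟨zx.comp xy⟩
  · exact ⟨Quiver.Path.nil⟩

variable (k : Type u) [Field k]

/-- the element of the path algebra given by an arrow -/
noncomputable def el {p q : Vtx} (f : p ⟶ q) : PathAlgebra k Vtx := ofPath k (arr f)

/-- the three relations `b b = 0`, `b a = 0` (first `a`, then `b`), `d c = 0` -/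
def rels : Set (PathAlgebra k Vtx) := {el k qb * el k qb, el k qb * el k qa, el k qd * el k qc}

/-- the admissible ideal -/
noncomputable def II : Ideal (PathAlgebra k Vtx) := (TwoSidedIdeal.span (rels k)).asIdeal

instance : (II k).IsTwoSided := inferInstanceAs ((TwoSidedIdeal.span (rels k)).asIdeal.IsTwoSided)

lemma mem_II (f : PathAlgebra k Vtx) : f ∈ II k ↔ f ∈ TwoSidedIdeal.span (rels k) := Iff.rfl

lemma mem_bb : el k qb * el k qb ∈ II k :=
  TwoSidedIdeal.subset_span (by simp [rels])
lemma mem_ba : el k qb * el k qa ∈ II k :=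
  TwoSidedIdeal.subset_span (by simp [rels])
lemma mem_dc : el k qd * el k qc ∈ II k :=
  TwoSidedIdeal.subset_span (by simp [rels])

section general
variable {V : Type*} [Fintype V] [Quiver.{0} V]

/-- span of the paths of length at least `n` -/
noncomputable def lenSub (n : ℕ) : Submodule k (PathAlgebra k V) :=
  Submodule.span k {f | ∃ p : APath V, n ≤ p.path.length ∧ f = ofPath k p}

lemma mem_lenSub_zero (f : PathAlgebra k V) : f ∈ lenSub k 0 := by
  rw [← (pathBasis k V).linearCombination_repr f, Finsupp.linearCombination_apply, Finsupp.sum]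
  refine Submodule.sum_mem _ fun p _ => Submodule.smul_mem _ _ (Submodule.subset_span ?_)
  exact ⟨p, Nat.zero_le _, rfl⟩

lemma lenSub_mul (m n : ℕ) (f g : PathAlgebra k V) (hf : f ∈ lenSub k m) (hg : g ∈ lenSub k n) :
    f * g ∈ lenSub k (V := V) (m + n) := by
  have : (lenSub k m : Submodule k (PathAlgebra k V)) * lenSub k n ≤ lenSub k (m + n) := by
    rw [lenSub, lenSub, Submodule.span_mul_span, Submodule.span_le]
    rintro _ ⟨_, ⟨p, hp, rfl⟩, _, ⟨q, hq, rfl⟩, rfl⟩
    change ofPath k p * ofPath k q ∈ lenSub k (m + n)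
    rw [ofPath_mul_ofPath]
    obtain ⟨a, b, p⟩ := p
    obtain ⟨c, d, q⟩ := q
    by_cases h : d = a
    · subst h
      rw [pathMul_of_eq]
      refine Submodule.subset_span ⟨_, ?_, rfl⟩
      rw [Quiver.Path.length_comp]
      change m ≤ p.length at hp
      change n ≤ q.length at hq
      omega
    · rw [pathMul_of_ne _ _ h]
      exact Submodule.zero_mem _
  exact this (Submodule.mul_mem_mul hf hg)

/-- the same, as an ideal -/
noncomputable def lenIdeal (n : ℕ) : Ideal (PathAlgebra k V) where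
  carrier := {f | f ∈ lenSub k (V := V) n}
  add_mem' := (lenSub k n).add_mem
  zero_mem' := (lenSub k n).zero_mem
  smul_mem' c f hf := by
    have := lenSub_mul k 0 n c f (mem_lenSub_zero k c) hf
    rw [zero_add] at this
    exact this

lemma mem_lenIdeal (n : ℕ) (f : PathAlgebra k V) : f ∈ lenIdeal k n ↔ f ∈ lenSub k n := Iff.rfl

instance lenIdeal_two (n : ℕ) : (lenIdeal k (V := V) n).IsTwoSided where
  mul_mem_of_left {f} g hf := by
    have := lenSub_mul k n 0 f g hf (mem_lenSub_zero k g)
    rw [add_zero] at this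
    exact this

lemma arrowIdeal_eq : arrowIdeal k V = lenIdeal k 1 := by
  apply le_antisymm
  · rw [arrowIdeal, Ideal.span_le]
    rintro _ ⟨p, hp, rfl⟩
    exact Submodule.subset_span ⟨p, hp, rfl⟩
  · intro f hf
    have hf' : f ∈ lenSub k 1 := hf
    have hle : lenSub k 1 ≤ (arrowIdeal k V).restrictScalars k := by
      rw [lenSub, Submodule.span_le]
      rintro _ ⟨p, hp, rfl⟩
      exact Ideal.subset_span ⟨p, hp, rfl⟩
    exact hle hf'

lemma arrowIdeal_pow_le (n : ℕ) : arrowIdeal k V ^ (n + 1) ≤ lenIdeal k (n + 1) := by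
  induction n with
  | zero => rw [zero_add, Submodule.pow_one, arrowIdeal_eq]
  | succ n ih =>
    rw [Submodule.pow_succ, Ideal.mul_le]
    intro f hf g hg
    rw [arrowIdeal_eq] at hg
    exact lenSub_mul k (n + 1) 1 f g (ih hf) hg

end general

lemma arrow_mem {p q : Vtx} (f : p ⟶ q) : el k f ∈ arrowIdeal k Vtx := by
  refine Ideal.subset_span ⟨arr f, ?_, rfl⟩
  simp [arr]

lemma II_le : II k ≤ arrowIdeal k Vtx ^ 2 := by
  have h2 : (arrowIdeal k Vtx).IsTwoSided := by rw [arrowIdeal_eq]; infer_instance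
  have h3 : (arrowIdeal k Vtx ^ 2).IsTwoSided := inferInstance
  have key : TwoSidedIdeal.span (rels k) ≤ (arrowIdeal k Vtx ^ 2).toTwoSided := by
    rw [TwoSidedIdeal.span_le]
    intro f hf
    rw [SetLike.mem_coe, Ideal.mem_toTwoSided, Submodule.pow_succ, Submodule.pow_one]
    rcases hf with rfl | rfl | rfl
    · exact Ideal.mul_mem_mul (arrow_mem k _) (arrow_mem k _)
    · exact Ideal.mul_mem_mul (arrow_mem k _) (arrow_mem k _)
    · exact Ideal.mul_mem_mul (arrow_mem k _) (arrow_mem k _)
  intro f hf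
  have := key ((mem_II k f).1 hf)
  rwa [Ideal.mem_toTwoSided] at this

/-- Any composable product of three... arrows `f₁, f₂, f₃, f₄` (in this order) is in the ideal. -/
lemma four_mem {p q r s t : Vtx} (f₁ : p ⟶ q) (f₂ : q ⟶ r) (f₃ : r ⟶ s) (f₄ : s ⟶ t) :
    el k f₄ * (el k f₃ * (el k f₂ * el k f₁)) ∈ II k := by
  have bb := mem_bb k
  have ba := mem_ba k
  have dc := mem_dc k
  have l : ∀ a b : PathAlgebra k Vtx, b ∈ II k → a * b ∈ II k := fun a b hb =>
    (II k).mul_mem_left a hb
  have r : ∀ a b : PathAlgebra k Vtx, a ∈ II k → a * b ∈ II k := fun a b ha =>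
    Ideal.IsTwoSided.mul_mem_of_left b ha
  change Arrow _ _ at f₁ f₂ f₃ f₄
  cases f₁ with
  | a =>
    cases f₂ with
    | b => exact l _ _ (l _ _ ba)
    | c =>
      cases f₃ with
      | d => refine l _ _ ?_; rw [← mul_assoc]; exact r _ _ dc
  | b =>
    cases f₂ with
    | b => exact l _ _ (l _ _ bb)
    | c =>
      cases f₃ with
      | d => refine l _ _ ?_; rw [← mul_assoc]; exact r _ _ dc
  | c =>
    cases f₂ with
    | d => exact l _ _ (l _ _ dc)
  | d =>
    cases f₂ with
    | a =>
      cases f₃ with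
      | b => refine l _ _ ?_; rw [← mul_assoc]; exact r _ _ ba
      | c =>
        cases f₄ with
        | d => rw [← mul_assoc]; exact r _ _ dc

lemma lenIdeal_four_le : lenIdeal k 4 ≤ II k := by
  intro f hf
  have hf' : f ∈ lenSub k 4 := hf
  have hle : lenSub k 4 ≤ (II k).restrictScalars k := by
    rw [lenSub, Submodule.span_le]
    rintro _ ⟨p, hp, rfl⟩
    obtain ⟨s, t, p⟩ := p
    change 4 ≤ p.length at hp
    change ofPath k _ ∈ II k
    cases p with
    | nil => simp at hp
    | cons p f₄ =>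
      cases p with
      | nil => simp at hp
      | cons p f₃ =>
        cases p with
        | nil => simp at hp
        | cons p f₂ =>
          cases p with
          | nil => simp at hp
          | cons p f₁ =>
            rw [ofPath_cons, ofPath_cons, ofPath_cons, ofPath_cons]
            have := Ideal.IsTwoSided.mul_mem_of_left (ofPath k (⟨_, _, p⟩ : APath Vtx))
              (four_mem k f₁ f₂ f₃ f₄)
            simp only [mul_assoc] at this
            exact this
  exact hle hf'

lemma admissible : IsAdmissible (II k) :=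
  ⟨4, by norm_num, (arrowIdeal_pow_le k 3).trans (lenIdeal_four_le k), II_le k⟩

end Pool.Agent.PathAlg
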