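import Pool.Agent.PathAlg.Proj

set_option autoImplicit false

universe u

open CategoryTheory

namespace Pool.Agent.PathAlg

variable (k : Type u) [Field k]

/-- the simple module as an object of the category of modules -/
noncomputable abbrev SC : ModuleCat.{u} (Lam k) := ModuleCat.of (Lam k) (SM k)
/-- the module `L` as an object of the category of modules -/
noncomputable abbrev LC : ModuleCat.{u} (Lam k) := ModuleCat.of (Lam k) (LM k)
/-- `P_x` as an object of the category of modules -/
noncomputable abbrev XC : ModuleCat.{u} (Lam k) := ModuleCat.of (Lam k) (XM k)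
/-- `P_y` as an object of the category of modules -/
noncomputable abbrev YC : ModuleCat.{u} (Lam k) := ModuleCat.of (Lam k) (YM k)

/-- the kernel of `P_x → S_x` is `L` -/
noncomputable def kerX : LinearMap.ker (πx k) ≃ₗ[Lam k] LM k :=
  (LinearEquiv.ofEq _ _ (exact_x k)).symm.trans (LinearEquiv.ofInjective (ιx k) (ιx_inj k)).symm

/-- the kernel of `P_y → L` is `L` -/
noncomputable def kerY : LinearMap.ker (πy k) ≃ₗ[Lam k] LM k :=
  (LinearEquiv.ofEq _ _ (exact_y k)).symm.trans (LinearEquiv.ofInjective (ιy k) (ιy_inj k)).symm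

lemma syzygy_unique (n : ℕ) (N : ModuleCat.{u} (Lam k)) (h : IsSyzygy (n + 1) (SC k) N) :
    Nonempty (N ≃ₗ[Lam k] LM k) := by
  induction n generalizing N with
  | zero =>
    obtain ⟨M', P, ⟨e⟩, π, hπ, ⟨g⟩⟩ := h
    obtain ⟨f⟩ := cover_unique (M' := SC k) (P' := XC k) π (πx k) hπ (coverX k) e.symm
    exact ⟨g.symm.trans (f.trans (kerX k))⟩
  | succ n ih =>
    obtain ⟨M', P, h', π, hπ, ⟨g⟩⟩ := h
    obtain ⟨e⟩ := ih M' h'
    obtain ⟨f⟩ := cover_unique (M' := LC k) (P' := YC k) π (πy k) hπ (coverY k) e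
    exact ⟨g.symm.trans (f.trans (kerY k))⟩

lemma syzygy_exists (n : ℕ) : IsSyzygy (n + 1) (SC k) (LC k) := by
  induction n with
  | zero =>
    exact ⟨SC k, XC k, ⟨LinearEquiv.refl _ _⟩, πx k, coverX k, ⟨kerX k⟩⟩
  | succ n ih =>
    exact ⟨LC k, YC k, ih, πy k, coverY k, ⟨kerY k⟩⟩

lemma ex_L (v : LM k) : ve k Vtx.x • v = 0 := by
  have h : ve k Vtx.x • v = toMod (lD k) (II k) (lH k) ((lD k).e Vtx.x v) :=
    triv_smul (lD k) (II k) (lH k) Vtx.x v
  rw [h]
  rfl

lemma ex_S (v : SM k) : ve k Vtx.x • v = v :=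
  triv_smul (sD k) (II k) (sH k) Vtx.x v

lemma L_nontrivial : ∃ v : LM k, v ≠ 0 := by
  refine ⟨((1, 0) : k × k), fun h => ?_⟩
  have h1 : ((1, 0) : k × k).1 = 0 := congrArg (fun v : k × k => v.1) h
  exact one_ne_zero h1

lemma L_not_projective : ¬ Module.Projective (Lam k) (LM k) := by
  intro hL
  have hid : IsProjectiveCover (P := LC k) (M := LC k) (LinearMap.id) := by
    refine ⟨hL, fun v => ⟨v, rfl⟩, ?_⟩
    intro N hN
    have : LinearMap.ker (LinearMap.id : LM k →ₗ[Lam k] LM k) = ⊥ := LinearMap.ker_id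
    rw [this, sup_bot_eq] at hN
    exact hN
  obtain ⟨f⟩ := cover_unique (M := LC k) (P := YC k) (M' := LC k) (P' := LC k) (πy k)
    (LinearMap.id) (coverY k) hid (LinearEquiv.refl _ _)
  obtain ⟨v, hv⟩ := L_nontrivial k
  have h2 : (f ((kerY k).symm v)) = 0 := by
    apply Subtype.ext
    exact (f ((kerY k).symm v)).2
  have h3 : (kerY k).symm v = 0 := f.injective (h2.trans (map_zero f).symm)
  exact hv ((kerY k).symm.injective (h3.trans (map_zero _).symm))

lemma L_hpd (n : ℕ) : ¬ HasProjectiveDimensionLT (LC k) (n + 1) := by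
  induction n with
  | zero =>
    intro h
    have h1 : Projective (LC k) := by
      rw [projective_iff_hasProjectiveDimensionLE_zero]
      exact h
    exact L_not_projective k ((IsProjective.iff_projective (R := Lam k) (LM k)).2 h1)
  | succ n ih =>
    intro h
    exact ih ((hpd_shift (M := LC k) (P := YC k) (L := LC k) (ιy k) (πy k) (ιy_inj k) (πy_surj k)
      (exact_y k) (projY k) n).1 h)

lemma S_pd : projectiveDimension (SC k) = ⊤ := by
  by_contra hne
  obtain ⟨n, hn⟩ := (projectiveDimension_ne_top_iff (SC k)).1 hne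
  have h1 : HasProjectiveDimensionLT (SC k) (n + 2) := by
    have : HasProjectiveDimensionLT (SC k) (n + 1) := hn
    exact hasProjectiveDimensionLT_of_ge (SC k) (n + 1) (n + 2) (by omega)
  exact L_hpd k n ((hpd_shift (M := SC k) (P := XC k) (L := LC k) (ιx k) (πx k) (ιx_inj k)
      (πx_surj k) (exact_x k) (projX k) n).1 h1)

lemma S_simple : IsSimpleModule (Lam k) (SM k) := by
  have hne : Nontrivial (SM k) := inferInstanceAs (Nontrivial k)
  refine { exists_pair_ne := ⟨⊥, ⊤, bot_ne_top⟩, eq_bot_or_eq_top := fun N => ?_ }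
  by_cases h : N = ⊥
  · exact Or.inl h
  · right
    obtain ⟨v, hv, hv0⟩ := N.exists_mem_ne_zero_of_ne_bot h
    rw [eq_top_iff]
    intro w _
    obtain ⟨c, hc⟩ : ∃ c : k, w = c • v := by
      refine ⟨(show k from w) * (show k from v)⁻¹, ?_⟩
      change (show k from w) = ((show k from w) * (show k from v)⁻¹) * (show k from v)
      rw [mul_assoc, inv_mul_cancel₀ hv0, mul_one]
    have hw : w = (c • (1 : Lam k)) • v := by
      rw [smul_assoc, one_smul, hc]
    rw [hw]
    exact N.smul_mem _ hv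

end Pool.Agent.PathAlg
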