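import Pool.Agent.PathAlg.Modules

set_option autoImplicit false

universe u

open CategoryTheory

namespace Pool.Agent.PathAlg

variable (k : Type u) [Field k]

/-- class of an arrow in `Λ` -/
noncomputable def cl {p q : Vtx} (f : p ⟶ q) : Lam k := Ideal.Quotient.mk (II k) (el k f)

/-- a module homomorphism between two modules given by representations -/
noncomputable def mapOf {M N : Type u} [AddCommGroup M] [Module k M] [AddCommGroup N] [Module k N]
    (D : Rep k Vtx (Module.End k M)) (h : ∀ f ∈ II k, D.lift f = 0)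
    (D' : Rep k Vtx (Module.End k N)) (h' : ∀ f ∈ II k, D'.lift f = 0) (φ : M →ₗ[k] N)
    (he : ∀ v m, φ (D.e v m) = D'.e v (φ m))
    (ha : ∀ {v w : Vtx} (f : v ⟶ w) m, φ (D.a f m) = D'.a f (φ m)) :
    ModOf D (II k) h →ₗ[Lam k] ModOf D' (II k) h' :=
  homOf (N := ModOf D' (II k) h') D (II k) h φ
    (fun v m => (he v m).trans (triv_smul D' (II k) h' v (φ m)).symm)
    (fun f m => (ha f m).trans (arr_smul D' (II k) h' f (φ m)).symm)

/-- `P_x → S_x` -/
noncomputable def πx : XM k →ₗ[Lam k] SM k :=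
  mapOf k (xD k) (xH k) (sD k) (sH k) (LinearMap.fst k k (k × k))
    (by intro v m; cases v <;> rfl)
    (by intro v w f m; change Arrow v w at f; cases f <;> rfl)

/-- `L → P_x` -/
noncomputable def ιx : LM k →ₗ[Lam k] XM k :=
  mapOf k (lD k) (lH k) (xD k) (xH k) (LinearMap.inr k k (k × k))
    (by intro v m; cases v <;> rfl)
    (by intro v w f m; change Arrow v w at f; cases f <;> rfl)

/-- `P_y → L` -/
noncomputable def πy : YM k →ₗ[Lam k] LM k :=
  mapOf k (yD k) (yH k) (lD k) (lH k)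
    (LinearMap.prodMap (LinearMap.fst k k k) (LinearMap.fst k k k))
    (by intro v m; cases v <;> rfl)
    (by intro v w f m; change Arrow v w at f; cases f <;> rfl)

/-- `L → P_y` -/
noncomputable def ιy : LM k →ₗ[Lam k] YM k :=
  mapOf k (lD k) (lH k) (yD k) (yH k)
    (LinearMap.prodMap (LinearMap.inr k k k) (LinearMap.inr k k k))
    (by intro v m; cases v <;> rfl)
    (by intro v w f m; change Arrow v w at f; cases f <;> rfl)

lemma πx_surj : Function.Surjective (πx k) := fun s => ⟨((s, 0, 0) : k × k × k), rfl⟩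
lemma πy_surj : Function.Surjective (πy k) :=
  fun s => ⟨((((s : k × k).1, 0), ((s : k × k).2, 0)) : (k × k) × (k × k)), rfl⟩
lemma ιx_inj : Function.Injective (ιx k) := by
  intro a b h
  exact congrArg (fun v : k × k × k => v.2) h
lemma ιy_inj : Function.Injective (ιy k) := by
  intro a b h
  have h1 := congrArg (fun v : (k × k) × (k × k) => v.1.2) h
  have h2 := congrArg (fun v : (k × k) × (k × k) => v.2.2) h
  exact Prod.ext h1 h2

lemma exact_x : LinearMap.range (ιx k) = LinearMap.ker (πx k) := by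
  ext v
  constructor
  · rintro ⟨w, rfl⟩
    rw [LinearMap.mem_ker]
    rfl
  · intro hv
    rw [LinearMap.mem_ker] at hv
    have hv' : (v : k × k × k).1 = 0 := hv
    refine ⟨(v : k × k × k).2, ?_⟩
    exact Prod.ext hv'.symm rfl

lemma exact_y : LinearMap.range (ιy k) = LinearMap.ker (πy k) := by
  ext v
  constructor
  · rintro ⟨w, rfl⟩
    rw [LinearMap.mem_ker]
    rfl
  · intro hv
    rw [LinearMap.mem_ker] at hv
    have hv' : (((v : (k × k) × (k × k)).1.1, (v : (k × k) × (k × k)).2.1) : k × k) = (0, 0) := hv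
    rw [Prod.mk.injEq] at hv'
    refine ⟨((v : (k × k) × (k × k)).1.2, (v : (k × k) × (k × k)).2.2), ?_⟩
    exact Prod.ext (Prod.ext hv'.1.symm rfl) (Prod.ext hv'.2.symm rfl)

/-! ### relations in `Λ` -/

lemma cl_mul_zero {p q r s : Vtx} (f : p ⟶ q) (g : r ⟶ s) (h : q ≠ r) : cl k g * cl k f = 0 := by
  rw [cl, cl, ← map_mul, el, el, ofPath_mul_ofPath, pathMul_of_ne _ _ h, map_zero]

lemma rel_bb : cl k qb * cl k qb = 0 := by
  rw [cl, ← map_mul, Ideal.Quotient.eq_zero_iff_mem]; exact mem_bb k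
lemma rel_ba : cl k qb * cl k qa = 0 := by
  rw [cl, cl, ← map_mul, Ideal.Quotient.eq_zero_iff_mem]; exact mem_ba k
lemma rel_dc : cl k qd * cl k qc = 0 := by
  rw [cl, cl, ← map_mul, Ideal.Quotient.eq_zero_iff_mem]; exact mem_dc k

/-- trivial path in `Λ` -/
noncomputable abbrev ve (v : Vtx) : Lam k := vertexIdem (II k) v

lemma ve_mul_cl {p q : Vtx} (f : p ⟶ q) : ve k q * cl k f = cl k f := by
  rw [ve, vertexIdem, cl, ← map_mul, el, ofPath_mul_ofPath, triv, arr, pathMul_of_eq]
  rfl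

lemma ve_mul_cl_ne {p q v : Vtx} (f : p ⟶ q) (h : q ≠ v) : ve k v * cl k f = 0 := by
  rw [ve, vertexIdem, cl, ← map_mul, el, ofPath_mul_ofPath, pathMul_of_ne _ _ h, map_zero]

lemma cl_mul_ve {p q : Vtx} (f : p ⟶ q) : cl k f * ve k p = cl k f := by
  rw [ve, vertexIdem, cl, ← map_mul, el, ofPath_mul_ofPath, triv, arr, pathMul_of_eq]
  rfl

lemma cl_mul_ve_ne {p q v : Vtx} (f : p ⟶ q) (h : v ≠ p) : cl k f * ve k v = 0 := by
  rw [ve, vertexIdem, cl, ← map_mul, el, ofPath_mul_ofPath, pathMul_of_ne _ _ h, map_zero]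

lemma ve_mul_ve (v : Vtx) : ve k v * ve k v = ve k v := by
  rw [ve, vertexIdem, ← map_mul, ofPath_mul_ofPath, triv, pathMul_of_eq]
  rfl

lemma ve_mul_ve_ne (v w : Vtx) (h : w ≠ v) : ve k v * ve k w = 0 := by
  rw [ve, ve, vertexIdem, vertexIdem, ← map_mul, ofPath_mul_ofPath, pathMul_of_ne _ _ h, map_zero]

end Pool.Agent.PathAlg
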