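import Pool.Agent.PathAlg.Example

set_option autoImplicit false

universe u

open CategoryTheory

namespace Pool.Agent.PathAlg

variable (k : Type u) [Field k]

/-- A representation in which the three relations hold is killed by the ideal. -/
lemma lift_eq_zero {M : Type u} [AddCommGroup M] [Module k M] (D : Rep k Vtx (Module.End k M))
    (hbb : D.a qb * D.a qb = 0) (hba : D.a qb * D.a qa = 0) (hdc : D.a qd * D.a qc = 0) :
    ∀ f ∈ II k, D.lift f = 0 := by
  have key : TwoSidedIdeal.span (rels k) ≤ TwoSidedIdeal.ker D.lift := by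
    rw [TwoSidedIdeal.span_le]
    intro f hf
    rw [SetLike.mem_coe, TwoSidedIdeal.mem_ker]
    rcases hf with rfl | rfl | rfl
    · rw [map_mul, el, D.lift_arr, hbb]
    · rw [map_mul, el, el, D.lift_arr, D.lift_arr, hba]
    · rw [map_mul, el, el, D.lift_arr, D.lift_arr, hdc]
  intro f hf
  exact (TwoSidedIdeal.mem_ker _).1 (key ((mem_II k f).1 hf))

/-! ### The simple module at `x` -/

/-- idempotents on the simple module -/
def sE : Vtx → Module.End k k
  | Vtx.x => LinearMap.id
  | Vtx.y => 0
  | Vtx.z => 0

/-- the simple representation at `x` -/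
def sD : Rep k Vtx (Module.End k k) where
  e := sE k
  a := fun _ => 0
  e_idem := by intro v; cases v <;> rfl
  e_orth := by intro v w h; cases v <;> cases w <;> first | exact absurd rfl h | rfl
  e_sum := by
    change ∑ v ∈ ({Vtx.x, Vtx.y, Vtx.z} : Finset Vtx), sE k v = 1
    simp [sE]
    rfl
  a_src := by intro v w f; rfl
  a_tgt := by intro v w f; exact mul_zero _

/-! ### The module `P_x` -/

/-- idempotents on `P_x` -/
def xE : Vtx → Module.End k (k × k × k)
  | Vtx.x => { toFun := fun v => (v.1, 0, 0), map_add' := by simp, map_smul' := by simp }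
  | Vtx.y => { toFun := fun v => (0, v.2.1, 0), map_add' := by simp, map_smul' := by simp }
  | Vtx.z => { toFun := fun v => (0, 0, v.2.2), map_add' := by simp, map_smul' := by simp }

/-- arrows on `P_x` -/
def xA : ∀ {p q : Vtx}, Arrow p q → Module.End k (k × k × k)
  | _, _, Arrow.a => { toFun := fun v => (0, v.1, 0), map_add' := by simp, map_smul' := by simp }
  | _, _, Arrow.b => 0
  | _, _, Arrow.c => { toFun := fun v => (0, 0, v.2.1), map_add' := by simp, map_smul' := by simp }
  | _, _, Arrow.d => 0

/-- the projective representation `P_x` -/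
def xD : Rep k Vtx (Module.End k (k × k × k)) where
  e := xE k
  a := fun f => xA k f
  e_idem := by intro v; cases v <;> rfl
  e_orth := by intro v w h; cases v <;> cases w <;> first | exact absurd rfl h | rfl
  e_sum := by
    change ∑ v ∈ ({Vtx.x, Vtx.y, Vtx.z} : Finset Vtx), xE k v = 1
    rw [Finset.sum_insert (by decide), Finset.sum_insert (by decide), Finset.sum_singleton]
    refine LinearMap.ext fun v => ?_
    refine Prod.ext ?_ (Prod.ext ?_ ?_) <;> simp [xE]
  a_src := by intro v w f; change Arrow v w at f; cases f <;> rfl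
  a_tgt := by intro v w f; change Arrow v w at f; cases f <;> rfl

/-! ### The module `L` -/

/-- idempotents on `L` -/
def lE : Vtx → Module.End k (k × k)
  | Vtx.x => 0
  | Vtx.y => { toFun := fun v => (v.1, 0), map_add' := by simp, map_smul' := by simp }
  | Vtx.z => { toFun := fun v => (0, v.2), map_add' := by simp, map_smul' := by simp }

/-- arrows on `L` -/
def lA : ∀ {p q : Vtx}, Arrow p q → Module.End k (k × k)
  | _, _, Arrow.a => 0
  | _, _, Arrow.b => 0
  | _, _, Arrow.c => { toFun := fun v => (0, v.1), map_add' := by simp, map_smul' := by simp }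
  | _, _, Arrow.d => 0

/-- the representation `L` -/
def lD : Rep k Vtx (Module.End k (k × k)) where
  e := lE k
  a := fun f => lA k f
  e_idem := by intro v; cases v <;> rfl
  e_orth := by intro v w h; cases v <;> cases w <;> first | exact absurd rfl h | rfl
  e_sum := by
    change ∑ v ∈ ({Vtx.x, Vtx.y, Vtx.z} : Finset Vtx), lE k v = 1
    rw [Finset.sum_insert (by decide), Finset.sum_insert (by decide), Finset.sum_singleton]
    refine LinearMap.ext fun v => ?_
    simp [lE]
  a_src := by intro v w f; change Arrow v w at f; cases f <;> rfl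
  a_tgt := by intro v w f; change Arrow v w at f; cases f <;> rfl

/-! ### The module `P_y` -/

/-- idempotents on `P_y` -/
def yE : Vtx → Module.End k ((k × k) × (k × k))
  | Vtx.x => 0
  | Vtx.y => { toFun := fun v => (v.1, 0), map_add' := by simp, map_smul' := by simp }
  | Vtx.z => { toFun := fun v => (0, v.2), map_add' := by simp, map_smul' := by simp }

/-- arrows on `P_y` -/
def yA : ∀ {p q : Vtx}, Arrow p q → Module.End k ((k × k) × (k × k))
  | _, _, Arrow.a => 0
  | _, _, Arrow.b =>
      { toFun := fun v => ((0, v.1.1), 0), map_add' := by simp, map_smul' := by simp }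
  | _, _, Arrow.c => { toFun := fun v => (0, v.1), map_add' := by simp, map_smul' := by simp }
  | _, _, Arrow.d => 0

/-- the projective representation `P_y` -/
def yD : Rep k Vtx (Module.End k ((k × k) × (k × k))) where
  e := yE k
  a := fun f => yA k f
  e_idem := by intro v; cases v <;> rfl
  e_orth := by intro v w h; cases v <;> cases w <;> first | exact absurd rfl h | rfl
  e_sum := by
    change ∑ v ∈ ({Vtx.x, Vtx.y, Vtx.z} : Finset Vtx), yE k v = 1
    rw [Finset.sum_insert (by decide), Finset.sum_insert (by decide), Finset.sum_singleton]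
    refine LinearMap.ext fun v => ?_
    simp [yE]
  a_src := by intro v w f; change Arrow v w at f; cases f <;> rfl
  a_tgt := by intro v w f; change Arrow v w at f; cases f <;> rfl

lemma sH : ∀ f ∈ II k, (sD k).lift f = 0 := lift_eq_zero k _ rfl rfl rfl
lemma xH : ∀ f ∈ II k, (xD k).lift f = 0 := lift_eq_zero k _ rfl rfl rfl
lemma lH : ∀ f ∈ II k, (lD k).lift f = 0 := lift_eq_zero k _ rfl rfl rfl
lemma yH : ∀ f ∈ II k, (yD k).lift f = 0 := lift_eq_zero k _ rfl rfl rfl

/-- the algebra `Λ = kQ / I` -/
abbrev Lam : Type u := PathAlgebra k Vtx ⧸ II k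

/-- the simple module -/
abbrev SM : Type u := ModOf (sD k) (II k) (sH k)
/-- the projective module `P_x` -/
abbrev XM : Type u := ModOf (xD k) (II k) (xH k)
/-- the module `L` -/
abbrev LM : Type u := ModOf (lD k) (II k) (lH k)
/-- the projective module `P_y` -/
abbrev YM : Type u := ModOf (yD k) (II k) (yH k)

end Pool.Agent.PathAlg
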