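import Pool.Agent.PathAlg.Maps

set_option autoImplicit false

universe u

open CategoryTheory

namespace Pool.Agent.PathAlg

variable (k : Type u) [Field k]

/-- generator of `P_x` -/
def x0 : XM k := ((1, 0, 0) : k × k × k)
/-- generator of `P_y` -/
def y0 : YM k := (((1, 0), (0, 0)) : (k × k) × (k × k))

/-- the linear map `P_x → Λ` -/
noncomputable def φX : (k × k × k) →ₗ[k] Lam k where
  toFun v := v.1 • ve k Vtx.x + v.2.1 • cl k qa + v.2.2 • (cl k qc * cl k qa)
  map_add' v w := by simp only [Prod.fst_add, Prod.snd_add, add_smul]; abel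
  map_smul' c v := by
    simp only [Prod.smul_fst, Prod.smul_snd, smul_eq_mul, mul_smul, RingHom.id_apply, smul_add]

lemma φX_apply (v : k × k × k) :
    φX k v = v.1 • ve k Vtx.x + v.2.1 • cl k qa + v.2.2 • (cl k qc * cl k qa) := rfl

/-- the linear map `P_y → Λ` -/
noncomputable def φY : ((k × k) × (k × k)) →ₗ[k] Lam k where
  toFun v := v.1.1 • ve k Vtx.y + v.1.2 • cl k qb + v.2.1 • cl k qc + v.2.2 • (cl k qc * cl k qb)
  map_add' v w := by simp only [Prod.fst_add, Prod.snd_add, add_smul]; abel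
  map_smul' c v := by
    simp only [Prod.smul_fst, Prod.smul_snd, smul_eq_mul, mul_smul, RingHom.id_apply, smul_add]

lemma φY_apply (v : (k × k) × (k × k)) :
    φY k v = v.1.1 • ve k Vtx.y + v.1.2 • cl k qb + v.2.1 • cl k qc +
      v.2.2 • (cl k qc * cl k qb) := rfl

lemma xE_apply_x (m : k × k × k) : (xD k).e Vtx.x m = (m.1, 0, 0) := rfl
lemma xE_apply_y (m : k × k × k) : (xD k).e Vtx.y m = (0, m.2.1, 0) := rfl
lemma xE_apply_z (m : k × k × k) : (xD k).e Vtx.z m = (0, 0, m.2.2) := rfl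
lemma xA_apply_a (m : k × k × k) : (xD k).a qa m = (0, m.1, 0) := rfl
lemma xA_apply_b (m : k × k × k) : (xD k).a qb m = 0 := rfl
lemma xA_apply_c (m : k × k × k) : (xD k).a qc m = (0, 0, m.2.1) := rfl
lemma xA_apply_d (m : k × k × k) : (xD k).a qd m = 0 := rfl

lemma φX_e (v : Vtx) (m : k × k × k) : φX k ((xD k).e v m) = ve k v • φX k m := by
  rw [smul_eq_mul, φX_apply k m, mul_add, mul_add, mul_smul_comm, mul_smul_comm, mul_smul_comm,
    ← mul_assoc]
  cases v
  · rw [xE_apply_x, φX_apply, ve_mul_ve, ve_mul_cl_ne k qa (by decide),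
      ve_mul_cl_ne k qc (by decide)]
    simp
  · rw [xE_apply_y, φX_apply, ve_mul_ve_ne k _ _ (by decide), ve_mul_cl k qa,
      ve_mul_cl_ne k qc (by decide)]
    simp
  · rw [xE_apply_z, φX_apply, ve_mul_ve_ne k _ _ (by decide), ve_mul_cl_ne k qa (by decide),
      ve_mul_cl k qc]
    simp

lemma φX_a {v w : Vtx} (f : v ⟶ w) (m : k × k × k) :
    φX k ((xD k).a f m) = cl k f • φX k m := by
  rw [smul_eq_mul, φX_apply k m, mul_add, mul_add, mul_smul_comm, mul_smul_comm, mul_smul_comm,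
    ← mul_assoc]
  change Arrow v w at f
  cases f
  · change φX k (0, m.1, 0) = m.1 • (cl k qa * ve k Vtx.x) + m.2.1 • (cl k qa * cl k qa) +
      m.2.2 • (cl k qa * cl k qc * cl k qa)
    rw [φX_apply, cl_mul_ve, cl_mul_zero k qa qa (by decide), cl_mul_zero k qc qa (by decide)]
    simp
  · change φX k 0 = m.1 • (cl k qb * ve k Vtx.x) + m.2.1 • (cl k qb * cl k qa) +
      m.2.2 • (cl k qb * cl k qc * cl k qa)
    rw [cl_mul_ve_ne k qb (by decide), rel_ba, cl_mul_zero k qc qb (by decide)]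
    simp
  · change φX k (0, 0, m.2.1) = m.1 • (cl k qc * ve k Vtx.x) + m.2.1 • (cl k qc * cl k qa) +
      m.2.2 • (cl k qc * cl k qc * cl k qa)
    rw [φX_apply, cl_mul_ve_ne k qc (by decide), cl_mul_zero k qc qc (by decide)]
    simp
  · change φX k 0 = m.1 • (cl k qd * ve k Vtx.x) + m.2.1 • (cl k qd * cl k qa) +
      m.2.2 • (cl k qd * cl k qc * cl k qa)
    rw [cl_mul_ve_ne k qd (by decide), cl_mul_zero k qa qd (by decide), rel_dc]
    simp

lemma φY_e (v : Vtx) (m : (k × k) × (k × k)) : φY k ((yD k).e v m) = ve k v • φY k m := by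
  rw [smul_eq_mul, φY_apply k m, mul_add, mul_add, mul_add, mul_smul_comm, mul_smul_comm,
    mul_smul_comm, mul_smul_comm, ← mul_assoc]
  cases v
  · change φY k 0 = _
    rw [ve_mul_ve_ne k _ _ (by decide), ve_mul_cl_ne k qb (by decide),
      ve_mul_cl_ne k qc (by decide)]
    simp
  · change φY k (m.1, 0) = _
    rw [φY_apply, ve_mul_ve, ve_mul_cl k qb, ve_mul_cl_ne k qc (by decide)]
    simp
  · change φY k (0, m.2) = _
    rw [φY_apply, ve_mul_ve_ne k _ _ (by decide), ve_mul_cl_ne k qb (by decide),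
      ve_mul_cl k qc]
    simp

lemma φY_a {v w : Vtx} (f : v ⟶ w) (m : (k × k) × (k × k)) :
    φY k ((yD k).a f m) = cl k f • φY k m := by
  rw [smul_eq_mul, φY_apply k m, mul_add, mul_add, mul_add, mul_smul_comm, mul_smul_comm,
    mul_smul_comm, mul_smul_comm, ← mul_assoc]
  change Arrow v w at f
  cases f
  · change φY k 0 = m.1.1 • (cl k qa * ve k Vtx.y) + m.1.2 • (cl k qa * cl k qb) +
      m.2.1 • (cl k qa * cl k qc) + m.2.2 • (cl k qa * cl k qc * cl k qb)
    rw [cl_mul_ve_ne k qa (by decide), cl_mul_zero k qb qa (by decide),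
      cl_mul_zero k qc qa (by decide)]
    simp
  · change φY k ((0, m.1.1), 0) = m.1.1 • (cl k qb * ve k Vtx.y) + m.1.2 • (cl k qb * cl k qb) +
      m.2.1 • (cl k qb * cl k qc) + m.2.2 • (cl k qb * cl k qc * cl k qb)
    rw [φY_apply, cl_mul_ve, rel_bb, cl_mul_zero k qc qb (by decide)]
    simp
  · change φY k (0, m.1) = m.1.1 • (cl k qc * ve k Vtx.y) + m.1.2 • (cl k qc * cl k qb) +
      m.2.1 • (cl k qc * cl k qc) + m.2.2 • (cl k qc * cl k qc * cl k qb)
    rw [φY_apply, cl_mul_ve, cl_mul_zero k qc qc (by decide)]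
    simp
  · change φY k 0 = m.1.1 • (cl k qd * ve k Vtx.y) + m.1.2 • (cl k qd * cl k qb) +
      m.2.1 • (cl k qd * cl k qc) + m.2.2 • (cl k qd * cl k qc * cl k qb)
    rw [cl_mul_ve_ne k qd (by decide), cl_mul_zero k qb qd (by decide), rel_dc]
    simp

/-- `P_x → Λ` -/
noncomputable def iX : XM k →ₗ[Lam k] Lam k :=
  homOf (xD k) (II k) (xH k) (φX k) (φX_e k) (fun f m => φX_a k f m)

/-- `P_y → Λ` -/
noncomputable def iY : YM k →ₗ[Lam k] Lam k :=
  homOf (yD k) (II k) (yH k) (φY k) (φY_e k) (fun f m => φY_a k f m)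

lemma iX_smul' (m : k × k × k) : (φX k m) • x0 k = toMod (xD k) (II k) (xH k) m := by
  rw [φX_apply, add_smul, add_smul, smul_assoc, smul_assoc, smul_assoc, mul_smul]
  have e1 : ve k Vtx.x • x0 k = toMod (xD k) (II k) (xH k) (1, 0, 0) :=
    triv_smul (xD k) (II k) (xH k) Vtx.x (1, 0, 0)
  have e2 : cl k qa • x0 k = toMod (xD k) (II k) (xH k) (0, 1, 0) :=
    arr_smul (xD k) (II k) (xH k) qa (1, 0, 0)
  have e3 : cl k qc • toMod (xD k) (II k) (xH k) (0, 1, 0) =
      toMod (xD k) (II k) (xH k) (0, 0, 1) :=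
    arr_smul (xD k) (II k) (xH k) qc (0, 1, 0)
  rw [e1, e2, e3]
  change (m.1 • ((1, 0, 0) : k × k × k) + m.2.1 • ((0, 1, 0) : k × k × k) +
    m.2.2 • ((0, 0, 1) : k × k × k) : k × k × k) = m
  refine Prod.ext ?_ (Prod.ext ?_ ?_) <;> simp

lemma iX_smul (m : XM k) : (iX k m) • x0 k = m := iX_smul' k m

lemma iY_smul' (m : (k × k) × (k × k)) : (φY k m) • y0 k = toMod (yD k) (II k) (yH k) m := by
  rw [φY_apply, add_smul, add_smul, add_smul, smul_assoc, smul_assoc, smul_assoc, smul_assoc,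
    mul_smul]
  have e1 : ve k Vtx.y • y0 k = toMod (yD k) (II k) (yH k) ((1, 0), (0, 0)) :=
    triv_smul (yD k) (II k) (yH k) Vtx.y ((1, 0), (0, 0))
  have e2 : cl k qb • y0 k = toMod (yD k) (II k) (yH k) ((0, 1), (0, 0)) :=
    arr_smul (yD k) (II k) (yH k) qb ((1, 0), (0, 0))
  have e3 : cl k qc • y0 k = toMod (yD k) (II k) (yH k) ((0, 0), (1, 0)) :=
    arr_smul (yD k) (II k) (yH k) qc ((1, 0), (0, 0))
  have e4 : cl k qc • toMod (yD k) (II k) (yH k) ((0, 1), (0, 0)) =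
      toMod (yD k) (II k) (yH k) ((0, 0), (0, 1)) :=
    arr_smul (yD k) (II k) (yH k) qc ((0, 1), (0, 0))
  rw [e1, e2, e3, e4]
  change (m.1.1 • (((1, 0), (0, 0)) : (k × k) × (k × k)) +
    m.1.2 • (((0, 1), (0, 0)) : (k × k) × (k × k)) +
    m.2.1 • (((0, 0), (1, 0)) : (k × k) × (k × k)) +
    m.2.2 • (((0, 0), (0, 1)) : (k × k) × (k × k)) : (k × k) × (k × k)) = m
  refine Prod.ext (Prod.ext ?_ ?_) (Prod.ext ?_ ?_) <;> simp

lemma iY_smul (m : YM k) : (iY k m) • y0 k = m := iY_smul' k m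

lemma projX : Module.Projective (Lam k) (XM k) :=
  Module.Projective.of_split (iX k) (LinearMap.toSpanSingleton (Lam k) (XM k) (x0 k))
    (LinearMap.ext fun m => iX_smul k m)

lemma projY : Module.Projective (Lam k) (YM k) :=
  Module.Projective.of_split (iY k) (LinearMap.toSpanSingleton (Lam k) (YM k) (y0 k))
    (LinearMap.ext fun m => iY_smul k m)

lemma coverX : IsProjectiveCover (P := ModuleCat.of (Lam k) (XM k))
    (M := ModuleCat.of (Lam k) (SM k)) (πx k) := by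
  refine ⟨projX k, πx_surj k, ?_⟩
  intro N hN
  have hx0 : x0 k ∈ N := by
    have : x0 k ∈ N ⊔ LinearMap.ker (πx k) := by rw [hN]; trivial
    obtain ⟨n, hn, κ, hκ, hsum⟩ := Submodule.mem_sup.1 this
    have hκ1 : (κ : k × k × k).1 = 0 := hκ
    have e1 : ve k Vtx.x • x0 k = x0 k := triv_smul (xD k) (II k) (xH k) Vtx.x (1, 0, 0)
    have e2 : ve k Vtx.x • κ = 0 := by
      have h1 : ve k Vtx.x • κ = toMod (xD k) (II k) (xH k) ((κ : k × k × k).1, 0, 0) :=
        triv_smul (xD k) (II k) (xH k) Vtx.x κ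
      rw [h1, hκ1]
      rfl
    rw [← e1, ← hsum, smul_add, e2, add_zero]
    exact N.smul_mem _ hn
  rw [eq_top_iff]
  intro m _
  rw [← iX_smul k m]
  exact N.smul_mem _ hx0

lemma coverY : IsProjectiveCover (P := ModuleCat.of (Lam k) (YM k))
    (M := ModuleCat.of (Lam k) (LM k)) (πy k) := by
  refine ⟨projY k, πy_surj k, ?_⟩
  intro N hN
  have hy0 : y0 k ∈ N := by
    have : y0 k ∈ N ⊔ LinearMap.ker (πy k) := by rw [hN]; trivial
    obtain ⟨n, hn, κ, hκ, hsum⟩ := Submodule.mem_sup.1 this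
    have hκ' : (((κ : (k × k) × (k × k)).1.1, (κ : (k × k) × (k × k)).2.1) : k × k) = (0, 0) := hκ
    rw [Prod.mk.injEq] at hκ'
    set t : k := (κ : (k × k) × (k × k)).1.2 with ht
    have e1 : ve k Vtx.y • y0 k = y0 k :=
      triv_smul (yD k) (II k) (yH k) Vtx.y ((1, 0), (0, 0))
    have e2 : ve k Vtx.y • κ = t • (cl k qb • y0 k) := by
      have h1 : ve k Vtx.y • κ = toMod (yD k) (II k) (yH k) ((κ : (k × k) × (k × k)).1, 0) :=
        triv_smul (yD k) (II k) (yH k) Vtx.y κ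
      have h2 : cl k qb • y0 k = toMod (yD k) (II k) (yH k) ((0, 1), (0, 0)) :=
        arr_smul (yD k) (II k) (yH k) qb ((1, 0), (0, 0))
      rw [h1, h2]
      change (((κ : (k × k) × (k × k)).1, 0) : (k × k) × (k × k)) =
        t • (((0, 1), (0, 0)) : (k × k) × (k × k))
      refine Prod.ext (Prod.ext ?_ ?_) (Prod.ext ?_ ?_)
      · simpa using hκ'.1
      · simp [ht]
      · simp
      · simp
    have e3 : cl k qb • κ = 0 := by
      have h1 : cl k qb • κ = toMod (yD k) (II k) (yH k) ((0, (κ : (k × k) × (k × k)).1.1), 0) :=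
        arr_smul (yD k) (II k) (yH k) qb κ
      rw [h1, hκ'.1]
      rfl
    have e4 : cl k qb • y0 k = cl k qb • n := by
      rw [← hsum, smul_add, e3, add_zero]
    have e5 : y0 k = ve k Vtx.y • n + (t • cl k qb) • n := by
      rw [← e1]
      conv_lhs => rw [← hsum]
      rw [smul_add, e2, e4, smul_assoc]
    rw [e5]
    exact N.add_mem (N.smul_mem _ hn) (N.smul_mem _ hn)
  rw [eq_top_iff]
  intro m _
  rw [← iY_smul k m]
  exact N.smul_mem _ hy0

end Pool.Agent.PathAlg
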